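import Pool.Agent.H24.UG.T4
import Pool.Agent.H3.GA.DW

/-!
UNIFORM LOCAL GAP (`MP_c59857_nt`): row UDW. The dichotomy for a fixed modulus.
-/

set_option autoImplicit false

open MeasureTheory ProbabilityTheory Filter Topology Finset
open scoped Nat ENNReal

namespace Pool.Agent.H59.UG

open Pool.Agent.H24.T2 (Pset)
open Pool.Agent.H67.AG (avgP ul Inv Tup dl Dlt Mis bd T_UL T_PI)
open Pool.Agent.H3.GA (sq_sum_erase avgP_le avgP_add avgP_sub avgP_sum avgP_const avgP_bd
  dvd_of_mem int_ind iter_meas dl_meas dl_val dl_bd bd_meas pair_bound dvd_Dlt Dlt_pos pset_ne)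
open Pool.Agent.H24.UG (Sgn dn Lm T_UDW)

theorem abs_sgn {σ : ℕ → ℝ} (h : Sgn σ) (p : ℕ) :
    (|σ p| = 0 ∧ σ p = 0) ∨ (|σ p| = 1 ∧ (σ p = 1 ∨ σ p = -1)) := by
  rcases h p with h | h | h
  · left; rw [h]; simp
  · right; rw [h]; simp
  · right; rw [h]; simp

theorem abs_sgn_bd {σ : ℕ → ℝ} (h : Sgn σ) (p : ℕ) : 0 ≤ |σ p| ∧ |σ p| ≤ 1 := by
  rcases abs_sgn h p with ⟨h, _⟩ | ⟨h, _⟩ <;> rw [h] <;> norm_num

/-- the inequality for one prime, with the weight -/
theorem wt_bound {Ω : Type} [MeasurableSpace Ω] (P : Measure Ω) [IsProbabilityMeasure P]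
    (T : Ω ≃ᵐ Ω) {k : ℕ} (β : Fin k → ℕ) (σ : ℕ → ℝ) (hσ : Sgn σ) (W : ℕ)
    (y y' : Fin k → Ω → ℝ) (A : Set Ω)
    (hT : MeasurePreserving T P P) (hy : Tup y) (hy' : Tup y')
    (hA : MeasurableSet[Inv T W] A) (p : ℕ) (hp : W ∣ p - 1) :
    |σ p| * ∫ ω in A, Mis P (Inv T W) y y' ω ∂P - ∑ i, ∑ j ∈ univ.erase i,
      ∫ ω, A.indicator (fun _ => (1 : ℝ)) ω * dl y y' i (T^[(p - 1) * β i] ω) *
        dl y y' j (T^[(p - 1) * β j] ω) ∂P ≤
      |σ p| * P.real (A ∩ bd T β (σ p) y p) + |σ p| * P.real (A ∩ bd T β (σ p) y' p) := by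
  rcases abs_sgn hσ p with ⟨h, _⟩ | ⟨h, h'⟩
  · rw [h, zero_mul, zero_mul, zero_mul, zero_sub, add_zero, neg_nonpos]
    refine Finset.sum_nonneg fun i _ => Finset.sum_nonneg fun j _ => integral_nonneg fun ω => ?_
    exact mul_nonneg (mul_nonneg (Set.indicator_nonneg (fun _ _ => zero_le_one) ω)
      (dl_bd y y' i _).1) (dl_bd y y' j _).1
  · rw [h, one_mul, one_mul, one_mul]
    exact pair_bound P T β (σ p) W y y' A hT h' hy hy' hA p hp

theorem avgP_wt {W m : ℕ} {σ F : ℕ → ℝ} (hσ : Sgn σ) (h : ∀ p, 0 ≤ F p ∧ F p ≤ 1) :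
    |avgP W m fun p => |σ p| * F p| ≤ 1 :=
  avgP_bd fun p => ⟨mul_nonneg (abs_sgn_bd hσ p).1 (h p).1,
    mul_le_one₀ (abs_sgn_bd hσ p).2 (h p).1 (h p).2⟩

theorem avgP_mul_const (W m : ℕ) (F : ℕ → ℝ) (c : ℝ) :
    avgP W m (fun p => F p * c) = avgP W m F * c := by
  unfold avgP
  rw [← Finset.sum_mul, div_mul_eq_mul_div]

/-- the density is at most one -/
theorem dn_le_one (hul : T_UL) {U : Ultrafilter ℕ} {W : ℕ} {σ : ℕ → ℝ} (hσ : Sgn σ) :
    dn U W σ ≤ 1 := by
  obtain ⟨-, hmono, -, -, hconst⟩ := hul U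
  unfold dn
  conv_rhs => rw [← hconst 1]
  refine hmono _ _ ⟨1, fun m => avgP_bd fun p => abs_sgn_bd hσ p⟩ ⟨1, fun _ => by norm_num⟩
    (Eventually.of_forall fun m => ?_)
  exact (le_abs_self _).trans (avgP_bd fun p => abs_sgn_bd hσ p)

/-- passage to the limit -/
theorem ul_low (hul : T_UL) (U : Ultrafilter ℕ) (a f₁ f₂ : ℕ → ℝ) (I c : ℝ)
    (ha : ∀ m, |a m| ≤ 1) (h₁ : ∀ m, |f₁ m| ≤ 1) (h₂ : ∀ m, |f₂ m| ≤ 1)
    (h : ∀ᶠ m in (U : Filter ℕ), a m * I - c ≤ f₁ m + f₂ m) :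
    ul U a * I - c ≤ ul U f₁ + ul U f₂ := by
  obtain ⟨-, hmono, hadd, hmul, hconst⟩ := hul U
  rw [← hadd f₁ f₂ ⟨1, h₁⟩ ⟨1, h₂⟩]
  have hI : ∀ m, |I * a m| ≤ |I| := fun m => by
    rw [abs_mul]
    exact mul_le_of_le_one_right (abs_nonneg _) (ha m)
  have e1 : ul U (fun m => I * a m + -c) = I * ul U a + -c := by
    rw [hadd (fun m => I * a m) (fun _ => -c) ⟨|I|, hI⟩ ⟨|(-c)|, fun _ => le_rfl⟩,
      hmul a I ⟨1, ha⟩, hconst]
  have e2 : ul U a * I - c = ul U (fun m => I * a m + -c) := by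
    rw [e1]; ring
  rw [e2]
  refine hmono _ _ ⟨|I| + |c|, fun m => ?_⟩
    ⟨2, fun m => (abs_add_le _ _).trans (by linarith [h₁ m, h₂ m])⟩ (h.mono fun m hm => ?_)
  · refine (abs_add_le _ _).trans ?_
    rw [abs_neg]
    exact add_le_add (hI m) le_rfl
  · linarith

theorem pf_UDW (hul : T_UL) (hpi : T_PI) : T_UDW := by
  intro Ω mΩ P _ T k β σ γ w W U y y' A hT hβ hσ hγ hw hW hwW hU hy hy' hA
  classical
  have hAm : MeasurableSet A := MeasurableSpace.invariants_le _ _ hA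
  set E : Fin k → Ω → ℝ := fun i => P[dl y y' i | Inv T W] with hE
  set B : Fin k → ℝ := fun i =>
    ∫ ω in A, |(P[dl y y' i | Inv T (W * Dlt β)]) ω - E i ω| ∂P with hB
  have hB0 : ∀ i, 0 ≤ B i := fun i => integral_nonneg fun ω => abs_nonneg _
  set f₁ : ℕ → ℝ := fun m => avgP W m fun p => |σ p| * P.real (A ∩ bd T β (σ p) y p) with hf₁
  set f₂ : ℕ → ℝ := fun m => avgP W m fun p => |σ p| * P.real (A ∩ bd T β (σ p) y' p) with hf₂
  set a : ℕ → ℝ := fun m => avgP W m fun p => |σ p| with ha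
  have hb₁ : ∀ m, |f₁ m| ≤ 1 := fun m =>
    avgP_wt hσ fun p => ⟨measureReal_nonneg, measureReal_le_one⟩
  have hb₂ : ∀ m, |f₂ m| ≤ 1 := fun m =>
    avgP_wt hσ fun p => ⟨measureReal_nonneg, measureReal_le_one⟩
  have hab : ∀ m, |a m| ≤ 1 := fun m => avgP_bd fun p => abs_sgn_bd hσ p
  have hn₁ : ∀ m, 0 ≤ f₁ m := fun m =>
    div_nonneg (Finset.sum_nonneg fun p _ => mul_nonneg (abs_nonneg _) measureReal_nonneg)
      (Nat.cast_nonneg _)
  have hn₂ : ∀ m, 0 ≤ f₂ m := fun m =>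
    div_nonneg (Finset.sum_nonneg fun p _ => mul_nonneg (abs_nonneg _) measureReal_nonneg)
      (Nat.cast_nonneg _)
  have hL₁ : Lm U W P T β σ y A = ul U f₁ := rfl
  have hL₂ : Lm U W P T β σ y' A = ul U f₂ := rfl
  have hdn : dn U W σ = ul U a := rfl
  have hd1 : γ ≤ 1 := hγ.trans (dn_le_one hul hσ)
  -- bounds for the conditional expectations
  have hdi : ∀ i, Integrable (dl y y' i) P := fun i =>
    Integrable.of_bound (dl_meas hy hy' i).aestronglyMeasurable 1 (Eventually.of_forall fun ω => by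
      rw [Real.norm_eq_abs, abs_of_nonneg (dl_bd y y' i ω).1]; exact (dl_bd y y' i ω).2)
  have hEb : ∀ i, ∀ᵐ ω ∂P, |E i ω| ≤ 1 := by
    intro i
    exact ae_bdd_abs_condExp_of_ae_bdd_abs (m := Inv T W) (μ := P) (R := (1 : ℝ))
      (f := dl y y' i) (Eventually.of_forall fun ω => by
        rw [abs_of_nonneg (dl_bd y y' i ω).1]; exact (dl_bd y y' i ω).2)
  have hE0 : ∀ i, 0 ≤ᵐ[P] E i := fun i =>
    condExp_nonneg (Eventually.of_forall fun ω => (dl_bd y y' i ω).1)
  have hEi : ∀ i, Integrable (E i) P := fun i => integrable_condExp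
  have hEEi : ∀ i j, Integrable (fun ω => E i ω * E j ω) P := by
    intro i j
    refine Integrable.of_bound ((hEi i).aestronglyMeasurable.mul (hEi j).aestronglyMeasurable) 1 ?_
    filter_upwards [hEb i, hEb j] with ω h1 h2
    rw [Real.norm_eq_abs, abs_mul]
    exact mul_le_one₀ h1 (abs_nonneg _) h2
  have hMe : ∀ ω, Mis P (Inv T W) y y' ω = ∑ i, E i ω := fun ω => rfl
  have hMi : Integrable (Mis P (Inv T W) y y') P := by
    unfold Mis
    exact integrable_finsetSum _ fun i _ => hEi i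
  have hI0 : 0 ≤ ∫ ω in A, Mis P (Inv T W) y y' ω ∂P := by
    refine setIntegral_nonneg_of_ae_restrict (ae_restrict_of_ae ?_)
    filter_upwards [ae_all_iff.2 hE0] with ω hω
    rw [hMe]
    exact Finset.sum_nonneg fun i _ => hω i
  have hM2 : ∀ ω, Mis P (Inv T W) y y' ω ^ 2 = ∑ i, ∑ j, E i ω * E j ω := by
    intro ω
    rw [hMe, sq, Finset.sum_mul_sum]
  have hM2i : Integrable (fun ω => Mis P (Inv T W) y y' ω ^ 2) P := by
    simp_rw [hM2]
    exact integrable_finsetSum _ fun i _ => integrable_finsetSum _ fun j _ => hEEi i j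
  have hsplit : ∀ c : ℝ, ∫ ω in A, (c * Mis P (Inv T W) y y' ω - Mis P (Inv T W) y y' ω ^ 2) ∂P =
      c * ∫ ω in A, Mis P (Inv T W) y y' ω ∂P - ∫ ω in A, Mis P (Inv T W) y y' ω ^ 2 ∂P := by
    intro c
    rw [integral_sub (hMi.integrableOn.const_mul c) hM2i.integrableOn, integral_const_mul]
  have hPA : 0 ≤ P.real A := measureReal_nonneg
  rw [hL₁, hL₂]
  rcases Nat.lt_or_ge w 2 with hw1 | hw2
  · -- the case `w = 1`
    have hw1' : w = 1 := by omega
    have h0 : 0 ≤ ul U f₁ + ul U f₂ := by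
      have h := ul_low hul U a f₁ f₂ 0 0 hab hb₁ hb₂ (Eventually.of_forall fun m => by
        have := add_nonneg (hn₁ m) (hn₂ m)
        linarith)
      linarith
    have h1 : 0 ≤ (k : ℝ) * ∑ i, B i :=
      mul_nonneg (Nat.cast_nonneg _) (Finset.sum_nonneg fun i _ => hB0 i)
    have h2 : ∫ ω in A, (γ * Mis P (Inv T W) y y' ω - Mis P (Inv T W) y y' ω ^ 2) ∂P ≤
        (k : ℝ) ^ 2 * P.real A := by
      rcases Nat.eq_zero_or_pos k with hk | hk
      · subst hk
        have h3 : ∀ ω, Mis P (Inv T W) y y' ω = 0 := fun ω => by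
          rw [hMe]; exact Finset.sum_of_isEmpty _
        simp [h3]
      · have h3 : ∫ ω in A, (1 * Mis P (Inv T W) y y' ω - Mis P (Inv T W) y y' ω ^ 2) ∂P ≤
            ∫ ω in A, (1 : ℝ) ∂P := by
          refine setIntegral_mono_on ((hMi.integrableOn.const_mul 1).sub hM2i.integrableOn)
            (integrable_const _).integrableOn hAm fun ω _ => ?_
          nlinarith [sq_nonneg (Mis P (Inv T W) y y' ω - 1)]
        rw [setIntegral_const, smul_eq_mul, mul_one, hsplit] at h3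
        rw [hsplit]
        have h4 : (1 : ℝ) ≤ k := by exact_mod_cast hk
        have h5 : (1 : ℝ) ≤ (k : ℝ) ^ 2 := one_le_pow₀ h4
        have h6 := mul_le_mul_of_nonneg_right hd1 hI0
        have h7 := mul_le_mul_of_nonneg_right h5 hPA
        linarith
    rw [hw1']
    simp only [Nat.cast_one, div_one]
    linarith
  · -- the case `2 ≤ w`
    have hne := pset_ne hpi P T hT w W hw2 hW hwW
    refine le_of_forall_pos_le_add fun ε hε => ?_
    set ε' : ℝ := ε / ((k : ℝ) ^ 2 + 1) with hε'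
    have hk0 : (0 : ℝ) < (k : ℝ) ^ 2 + 1 := by positivity
    have hε'0 : 0 < ε' := div_pos hε hk0
    have hkε : (k : ℝ) ^ 2 * ε' ≤ ε := by
      rw [hε', mul_div_assoc', div_le_iff₀ hk0]
      nlinarith
    set G : Fin k → Fin k → ℕ → ℝ := fun i j p =>
      ∫ ω, A.indicator (fun _ => (1 : ℝ)) ω * dl y y' i (T^[(p - 1) * β i] ω) *
        dl y y' j (T^[(p - 1) * β j] ω) ∂P with hG
    have hpairs : ∀ᶠ m in atTop, ∀ i j, i ≠ j → avgP W m (G i j) ≤
        ∫ ω in A, E i ω * E j ω ∂P + (B i + (1 / (w : ℝ) * P.real A + ε')) := by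
      rw [eventually_all]
      intro i
      rw [eventually_all]
      intro j
      by_cases hij : i = j
      · exact Eventually.of_forall fun m h => absurd hij h
      obtain ⟨m₀, h₀⟩ := hpi Ω P T w W (β i) (β j) (Dlt β) (A.indicator fun _ => (1 : ℝ))
        (dl y y' i) (dl y y' j) ε' hT (Measurable.indicator measurable_const hA)
        (fun ω => ⟨Set.indicator_nonneg (fun _ _ => zero_le_one) ω,
          Set.indicator_le_self' (fun _ _ => zero_le_one) ω⟩)
        (dl_meas hy hy' i) (fun ω => by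
          rw [abs_of_nonneg (dl_bd y y' i ω).1]; exact (dl_bd y y' i ω).2)
        (dl_meas hy hy' j) (fun ω => by
          rw [abs_of_nonneg (dl_bd y y' j ω).1]; exact (dl_bd y y' j ω).2)
        hw hW hwW (fun h => hij (hβ h)) (dvd_Dlt β fun h => hij (hβ h)) (Dlt_pos β) hε'0
      filter_upwards [eventually_ge_atTop m₀] with m hm _
      have h1 := h₀ m hm
      have h2 : ∫ ω, A.indicator (fun _ => (1 : ℝ)) ω * (P[dl y y' i | Inv T W]) ω *
          (P[dl y y' j | Inv T W]) ω ∂P = ∫ ω in A, E i ω * E j ω ∂P := by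
        rw [← int_ind P hAm]
        refine integral_congr_ae (Eventually.of_forall fun ω => ?_)
        simp only [hE]
        ring
      have h3 : ∫ ω, A.indicator (fun _ => (1 : ℝ)) ω *
          |(P[dl y y' i | Inv T (W * Dlt β)]) ω - (P[dl y y' i | Inv T W]) ω| ∂P = B i :=
        int_ind P hAm _
      have h4 : ∫ ω, A.indicator (fun _ => (1 : ℝ)) ω ∂P = P.real A := by
        rw [integral_indicator hAm, setIntegral_const, smul_eq_mul, mul_one]
      rw [h2, h3, h4] at h1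
      have h5 := (abs_le.1 h1).2
      change avgP W m (G i j) - _ ≤ _ at h5
      linarith
    have hev : ∀ᶠ m in atTop, a m * ∫ ω in A, Mis P (Inv T W) y y' ω ∂P -
        (∫ ω in A, Mis P (Inv T W) y y' ω ^ 2 ∂P +
        (k * ∑ i, B i + (k : ℝ) ^ 2 * (1 / (w : ℝ) * P.real A + ε'))) ≤ f₁ m + f₂ m := by
      filter_upwards [hne, hpairs] with m hm hpm
      have h1 : a m * ∫ ω in A, Mis P (Inv T W) y y' ω ∂P -
          ∑ i, ∑ j ∈ univ.erase i, avgP W m (G i j) ≤ f₁ m + f₂ m := by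
        have h2 : avgP W m (fun p => |σ p| * ∫ ω in A, Mis P (Inv T W) y y' ω ∂P -
            ∑ i, ∑ j ∈ univ.erase i, G i j p) ≤
            avgP W m (fun p => |σ p| * P.real (A ∩ bd T β (σ p) y p) +
              |σ p| * P.real (A ∩ bd T β (σ p) y' p)) :=
          avgP_le fun p hp => wt_bound P T β σ hσ W y y' A hT hy hy' hA p (dvd_of_mem hp)
        rw [avgP_sub, avgP_mul_const, avgP_add, avgP_sum] at h2
        simp_rw [avgP_sum] at h2
        exact h2
      have h3 : ∑ i, ∑ j ∈ univ.erase i, avgP W m (G i j) ≤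
          ∑ i, ∑ j ∈ univ.erase i, (∫ ω in A, E i ω * E j ω ∂P +
            (B i + (1 / (w : ℝ) * P.real A + ε'))) :=
        Finset.sum_le_sum fun i _ => Finset.sum_le_sum fun j hj =>
          hpm i j (Finset.ne_of_mem_erase hj).symm
      have h4 : ∑ i, ∑ j ∈ univ.erase i, (∫ ω in A, E i ω * E j ω ∂P +
            (B i + (1 / (w : ℝ) * P.real A + ε'))) =
          ∑ i, ∑ j ∈ univ.erase i, ∫ ω in A, E i ω * E j ω ∂P +
          ∑ i : Fin k, ∑ j ∈ univ.erase i, (B i + (1 / (w : ℝ) * P.real A + ε')) := by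
        rw [← Finset.sum_add_distrib]
        refine Finset.sum_congr rfl fun i _ => ?_
        rw [← Finset.sum_add_distrib]
      have h5 : ∑ i : Fin k, ∑ j ∈ univ.erase i, (B i + (1 / (w : ℝ) * P.real A + ε')) ≤
          k * ∑ i, B i + (k : ℝ) ^ 2 * (1 / (w : ℝ) * P.real A + ε') := by
        have h6 : ∀ i : Fin k, ∑ j ∈ univ.erase i, (B i + (1 / (w : ℝ) * P.real A + ε')) ≤
            k * (B i + (1 / (w : ℝ) * P.real A + ε')) := by
          intro i
          have h7 : 0 ≤ B i + (1 / (w : ℝ) * P.real A + ε') := by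
            have := hB0 i
            positivity
          rw [Finset.sum_const, nsmul_eq_mul]
          refine mul_le_mul_of_nonneg_right ?_ h7
          have h8 : (univ.erase i).card ≤ k := by
            refine (Finset.card_le_card (Finset.erase_subset _ _)).trans ?_
            rw [Finset.card_univ, Fintype.card_fin]
          exact_mod_cast h8
        refine (Finset.sum_le_sum fun i _ => h6 i).trans (le_of_eq ?_)
        rw [← Finset.mul_sum, Finset.sum_add_distrib, Finset.sum_const, Finset.card_univ,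
          Fintype.card_fin, nsmul_eq_mul]
        ring
      have h9 : ∑ i, ∑ j ∈ univ.erase i, ∫ ω in A, E i ω * E j ω ∂P ≤
          ∫ ω in A, Mis P (Inv T W) y y' ω ^ 2 ∂P := by
        have h10 : ∑ i, ∑ j ∈ univ.erase i, ∫ ω in A, E i ω * E j ω ∂P =
            ∫ ω in A, ∑ i, ∑ j ∈ univ.erase i, E i ω * E j ω ∂P := by
          rw [integral_finsetSum _ fun i _ => ?_]
          · refine Finset.sum_congr rfl fun i _ => ?_
            rw [integral_finsetSum _ fun j _ => (hEEi i j).integrableOn]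
          · exact integrable_finsetSum _ fun j _ => (hEEi i j).integrableOn
        rw [h10]
        refine setIntegral_mono_on (integrable_finsetSum _ fun i _ =>
          integrable_finsetSum _ fun j _ => (hEEi i j).integrableOn) hM2i.integrableOn hAm
          fun ω _ => ?_
        have h11 := sq_sum_erase fun i => E i ω
        have h12 : 0 ≤ ∑ i, E i ω ^ 2 := Finset.sum_nonneg fun i _ => sq_nonneg _
        rw [hMe]
        linarith
      linarith
    have hfin := ul_low hul U a f₁ f₂ _ _ hab hb₁ hb₂ (hU hev)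
    rw [hsplit]
    have h13 : (k : ℝ) ^ 2 * (1 / (w : ℝ) * P.real A + ε') =
        (k : ℝ) ^ 2 / w * P.real A + (k : ℝ) ^ 2 * ε' := by ring
    rw [h13] at hfin
    have h14 : γ * ∫ ω in A, Mis P (Inv T W) y y' ω ∂P ≤
        ul U a * ∫ ω in A, Mis P (Inv T W) y y' ω ∂P :=
      mul_le_mul_of_nonneg_right (hdn ▸ hγ) hI0
    linarith

end Pool.Agent.H59.UG
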